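import Mathlib

/-! Elementary Ramsey bounds: the binomial upper bound and the counting lower bound. -/

set_option autoImplicit false

namespace Pool.Agent.Lib.MP_80f35e_co

open Finset

/-- every clique of `G` inside `W` has at most `s` vertices -/
def Bd {V : Type*} (G : SimpleGraph V) (W : Finset V) (s : ℕ) : Prop :=
  ∀ T : Finset V, T ⊆ W → G.IsClique (T : Set V) → T.card ≤ s

theorem Bd.mono {V : Type*} {G : SimpleGraph V} {W W' : Finset V} {s : ℕ} (h : Bd G W s)
    (hW : W' ⊆ W) : Bd G W' s := fun T hT hc => h T (hT.trans hW) hc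

theorem Bd.of_le {V : Type*} {G : SimpleGraph V} {W : Finset V} {s s' : ℕ} (h : Bd G W s)
    (hs : s ≤ s') : Bd G W s' := fun T hT hc => (h T hT hc).trans hs

theorem Bd.nbr {V : Type*} {G : SimpleGraph V} {W W' : Finset V} {s : ℕ} (h : Bd G W (s + 1))
    {v : V} (hv : v ∈ W) (hW : ∀ w ∈ W', w ∈ W ∧ G.Adj v w) : Bd G W' s := by
  classical
  intro T hT hc
  have hvT : v ∉ T := fun hm => G.irrefl (hW _ (hT hm)).2
  have h1 : insert v T ⊆ W := by
    intro x hx
    rcases mem_insert.1 hx with rfl | hx
    · exact hv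
    · exact (hW _ (hT hx)).1
  have h2 : G.IsClique ((insert v T : Finset V) : Set V) := by
    rw [coe_insert]
    exact hc.insert fun b hb _ => (hW _ (hT hb)).2
  have := h _ h1 h2
  rw [card_insert_of_notMem hvT] at this
  omega

theorem Bd.zero {V : Type*} {G : SimpleGraph V} {W : Finset V} (h : Bd G W 0) : W = ∅ := by
  rcases W.eq_empty_or_nonempty with h0 | ⟨v, hv⟩
  · exact h0
  · have := h {v} (by simpa using hv) (by simp)
    simp at this

theorem es_bound {V : Type*} (G : SimpleGraph V) :
    ∀ (k s t : ℕ) (W : Finset V), s + t = k → Bd G W s → Bd Gᶜ W t →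
      W.card < (s + t).choose s := by
  classical
  intro k
  induction k with
  | zero =>
    intro s t W hk h1 _
    have hs : s = 0 := by omega
    subst hs
    rw [h1.zero]; simp
  | succ k ih =>
    intro s t W hk h1 h2
    rcases s with _ | s
    · rw [h1.zero]; simp
    rcases t with _ | t
    · rw [h2.zero]; simp
    rcases W.eq_empty_or_nonempty with h0 | ⟨v, hv⟩
    · rw [h0, card_empty]; exact Nat.choose_pos (by omega)
    have a1 := ih s (t + 1) (W.filter fun w => G.Adj v w) (by omega)
      (h1.nbr hv fun w hw => mem_filter.1 hw)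
      (h2.mono (filter_subset _ _))
    have a2 := ih (s + 1) t (W.filter fun w => Gᶜ.Adj v w) (by omega)
      (h1.mono (filter_subset _ _)) (h2.nbr hv fun w hw => mem_filter.1 hw)
    have a3 : W ⊆ insert v ((W.filter fun w => G.Adj v w) ∪ (W.filter fun w => Gᶜ.Adj v w)) := by
      intro x hx
      by_cases hxv : x = v
      · simp [hxv]
      · by_cases ha : G.Adj v x
        · simp [hx, ha]
        · simp [hx, ha, Ne.symm hxv]
    have a4 := (card_le_card a3).trans ((card_insert_le _ _).trans
      (Nat.add_le_add_right (card_union_le _ _) 1))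
    have a5 : (s + 1 + (t + 1)).choose (s + 1) =
        (s + (t + 1)).choose s + (s + 1 + t).choose (s + 1) := by
      rw [show s + 1 + (t + 1) = (s + (t + 1)) + 1 by ring, Nat.choose_succ_succ,
        show s + 1 + t = s + (t + 1) by ring]
    omega

theorem bd_of_cliqueFree {V : Type*} {G : SimpleGraph V} {m : ℕ} (h : G.CliqueFree (m + 1))
    (W : Finset V) : Bd G W m := by
  intro T _ hc
  by_contra hlt
  obtain ⟨T', hT', hcard⟩ := exists_subset_card_eq (s := T) (n := m + 1) (by omega)
  exact h T' ⟨hc.subset (coe_subset.2 hT'), hcard⟩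

/-- a graph with small cliques and small independent sets on a finite set has at most `n`
vertices if there is none on `n + 1` vertices -/
theorem card_le_of_ext {n m : ℕ}
    (hext : ∀ H : SimpleGraph (Fin (n + 1)), ¬ (H.CliqueFree (m + 1) ∧ Hᶜ.CliqueFree (m + 1)))
    {V : Type*} (G : SimpleGraph V) (W : Finset V) (h1 : Bd G W m) (h2 : Bd Gᶜ W m) :
    W.card ≤ n := by
  classical
  by_contra hlt
  obtain ⟨W', hW', hcard⟩ := exists_subset_card_eq (s := W) (n := n + 1) (by omega)
  let e : Fin (n + 1) ≃ W' := (W'.equivFinOfCardEq hcard).symm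
  let f : Fin (n + 1) → V := fun i => (e i).1
  have hf : Function.Injective f := fun i j hij => e.injective (Subtype.ext hij)
  have key : ∀ F : SimpleGraph V, Bd F W m → (F.comap f).CliqueFree (m + 1) := by
    intro F hF T hT
    have b1 : T.image f ⊆ W := by
      intro x hx
      obtain ⟨i, _, rfl⟩ := mem_image.1 hx
      exact hW' (e i).2
    have b2 : F.IsClique ((T.image f : Finset V) : Set V) := by
      intro x hx y hy hxy
      obtain ⟨i, hi, rfl⟩ := mem_image.1 (mem_coe.1 hx)
      obtain ⟨j, hj, rfl⟩ := mem_image.1 (mem_coe.1 hy)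
      exact hT.1 hi hj fun hij => hxy (congrArg f hij)
    have := hF _ b1 b2
    rw [card_image_of_injective _ hf, hT.2] at this
    omega
  refine hext (G.comap f) ⟨key G h1, ?_⟩
  have : (G.comap f)ᶜ = Gᶜ.comap f := by
    ext i j
    simp [hf.ne_iff]
  rw [this]
  exact key _ h2

/-- the graph of a two-colouring of ordered pairs -/
def colG {N : ℕ} (c : Fin N × Fin N → Bool) (b : Bool) : SimpleGraph (Fin N) where
  Adj i j := (i < j ∧ c (i, j) = b) ∨ (j < i ∧ c (j, i) = b)
  symm := ⟨fun _ _ h => h.symm⟩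
  loopless := ⟨fun i h => by rcases h with h | h <;> exact lt_irrefl _ h.1⟩

theorem colG_compl {N : ℕ} (c : Fin N × Fin N → Bool) : (colG c true)ᶜ = colG c false := by
  ext i j
  simp only [SimpleGraph.compl_adj, colG]
  rcases lt_trichotomy i j with h | h | h
  · simp [h, h.ne, not_lt_of_gt h]
  · simp [h]
  · simp [h, h.ne', not_lt_of_gt h]

theorem exists_ramsey (m N : ℕ) (h : 2 * N.choose m < 2 ^ m.choose 2) :
    ∃ G : SimpleGraph (Fin N), G.CliqueFree m ∧ Gᶜ.CliqueFree m := by
  classical
  by_contra hno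
  let P : Finset (Fin N) → Finset (Fin N × Fin N) := fun T => (T ×ˢ T).filter fun x => x.1 < x.2
  let bad : Finset (Fin N) × Bool → Finset (Fin N × Fin N → Bool) := fun q =>
    Fintype.piFinset fun x => if x ∈ P q.1 then {q.2} else univ
  let I : Finset (Finset (Fin N) × Bool) := (powersetCard m univ) ×ˢ univ
  have hb : ∀ q ∈ I, (bad q).card * 2 ^ m.choose 2 = 2 ^ (N * N) := by
    intro q hq
    have hq1 : q.1.card = m := (mem_powersetCard.1 (mem_product.1 hq).1).2
    have hP : (P q.1).card = m.choose 2 := by rw [← hq1]; exact card_product_filter_lt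
    have e1 : (bad q).card = ∏ x : Fin N × Fin N, if x ∈ P q.1 then 1 else 2 := by
      simp only [bad, Fintype.card_piFinset]
      refine prod_congr rfl fun x _ => ?_
      split_ifs <;> simp
    have e2 : 2 ^ m.choose 2 = ∏ x : Fin N × Fin N, if x ∈ P q.1 then 2 else 1 := by
      rw [prod_ite_mem_eq, prod_const, hP]
    rw [e1, e2, ← prod_mul_distrib]
    rw [prod_congr rfl (g := fun _ => 2) fun x _ => by split_ifs <;> simp]
    simp
  have hcov : (univ : Finset (Fin N × Fin N → Bool)) ⊆ I.biUnion bad := by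
    intro c _
    have : ∃ b, ¬ (colG c b).CliqueFree m := by
      by_contra hh
      push Not at hh
      exact hno ⟨colG c true, hh true, by rw [colG_compl]; exact hh false⟩
    obtain ⟨b, hb'⟩ := this
    simp only [SimpleGraph.CliqueFree, not_forall, not_not] at hb'
    obtain ⟨T, hT⟩ := hb'
    refine mem_biUnion.2 ⟨(T, b), ?_, ?_⟩
    · simp [I, hT.2]
    · simp only [bad, Fintype.mem_piFinset]
      intro x
      split_ifs with hx
      · simp only [P, mem_filter, mem_product] at hx
        rcases hT.1 (mem_coe.2 hx.1.1) (mem_coe.2 hx.1.2) hx.2.ne with h' | h'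
        · simpa using h'.2
        · exact absurd h'.1 (not_lt_of_gt hx.2)
      · simp
  have c1 := (card_le_card hcov).trans card_biUnion_le
  have c2 : (∑ q ∈ I, (bad q).card) * 2 ^ m.choose 2 = I.card * 2 ^ (N * N) := by
    rw [sum_mul, sum_congr rfl hb, sum_const, smul_eq_mul]
  have c3 : I.card = 2 * N.choose m := by simp [I, mul_comm]
  have c4 : (univ : Finset (Fin N × Fin N → Bool)).card = 2 ^ (N * N) := by simp
  rw [c4] at c1
  have c5 := Nat.mul_le_mul_right (2 ^ m.choose 2) c1
  rw [c2, c3, mul_comm] at c5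
  have c6 := Nat.le_of_mul_le_mul_right c5 (by positivity)
  omega

theorem lower_bound {n m : ℕ} (hm : 2 ≤ m)
    (hext : ∀ H : SimpleGraph (Fin (n + 1)), ¬ (H.CliqueFree (m + 1) ∧ Hᶜ.CliqueFree (m + 1))) :
    2 ^ (m / 2) ≤ n := by
  have h1 : 2 * (2 ^ (m / 2)).choose (m + 1) < 2 ^ (m + 1).choose 2 := by
    have a1 : (m + 1).factorial * (2 ^ (m / 2)).choose (m + 1) ≤ (2 ^ (m / 2)) ^ (m + 1) := by
      rw [← Nat.descFactorial_eq_factorial_mul_choose]
      exact Nat.descFactorial_le_pow _ _
    have a2 : (2 ^ (m / 2)) ^ (m + 1) ≤ 2 ^ (m + 1).choose 2 := by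
      rw [← pow_mul]
      refine Nat.pow_le_pow_right (by norm_num) ?_
      rw [Nat.choose_two_right, Nat.add_sub_cancel, Nat.le_div_iff_mul_le (by norm_num)]
      have : m / 2 * 2 ≤ m := Nat.div_mul_le_self _ _
      nlinarith
    have a3 : 3 ≤ (m + 1).factorial := (by omega : 3 ≤ m + 1).trans (Nat.self_le_factorial _)
    have a4 : 0 < 2 ^ (m + 1).choose 2 := by positivity
    nlinarith
  obtain ⟨G, g1, g2⟩ := exists_ramsey _ _ h1
  simpa using card_le_of_ext hext G univ (bd_of_cliqueFree g1 _) (bd_of_cliqueFree g2 _)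

end Pool.Agent.Lib.MP_80f35e_co
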