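import Pool.Agent.Lib.MP_80f35e_co.Glue

/-! A large vertex set of an extremal graph has a clique of more than half the allowed size. -/

set_option autoImplicit false

namespace Pool.Agent.Lib.MP_80f35e_co

open Finset

theorem exists_max_clique {V : Type*} (G : SimpleGraph V) (W : Finset V) :
    ∃ K : Finset V, K ⊆ W ∧ G.IsClique (K : Set V) ∧ Bd G W K.card := by
  classical
  obtain ⟨K, hK, hmax⟩ := exists_max_image
    (W.powerset.filter fun T : Finset V => G.IsClique (T : Set V)) card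
    ⟨∅, by simp⟩
  obtain ⟨k1, k2⟩ := mem_filter.1 hK
  exact ⟨K, mem_powerset.1 k1, k2, fun T hT hc =>
    hmax T (mem_filter.2 ⟨mem_powerset.2 hT, hc⟩)⟩

theorem choose_bound (t k : ℕ) : (t + k).choose t * 23 ^ k ≤ 24 ^ (t + k) := by
  have h := add_pow (1 : ℕ) 23 (t + k)
  rw [show (1 + 23 : ℕ) = 24 from rfl] at h
  rw [h]
  have := single_le_sum (f := fun i => 1 ^ i * 23 ^ (t + k - i) * ((t + k).choose i : ℕ))
    (s := range (t + k + 1)) (fun _ _ => Nat.zero_le _) (a := t) (mem_range.2 (by omega))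
  simpa [mul_comm] using this

open Classical in
theorem patterns_bound {V : Type*} (K : Finset V) (t : ℕ) :
    (K.powerset.filter fun T => T.card ≤ t).card * 10 ^ K.card ≤ 10 ^ t * 11 ^ K.card := by
  have h := sum_pow_mul_eq_add_pow (1 : ℕ) 10 K
  rw [show (1 + 10 : ℕ) = 11 from rfl] at h
  rw [← h, mul_sum, card_eq_sum_ones, sum_mul]
  refine (sum_le_sum fun T hT => ?_).trans
    (sum_le_sum_of_subset (filter_subset (fun T : Finset V => T.card ≤ t) _))
  obtain ⟨h1, h2⟩ := mem_filter.1 hT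
  rw [one_pow, one_mul, one_mul, ← pow_add]
  exact Nat.pow_le_pow_right (by norm_num) (by omega)

open Classical in
/-- vertices with few non-neighbours in a maximum clique are few -/
theorem good_bound {V : Type*} (G : SimpleGraph V) (S K : Finset V) (hKS : K ⊆ S)
    (hK : G.IsClique (K : Set V)) (hmax : Bd G S K.card) (k t : ℕ) (h2 : Bd Gᶜ S k) :
    ((S \ K).filter fun w => (K.filter fun v => Gᶜ.Adj v w).card ≤ t).card ≤
      (t + k).choose t * (K.powerset.filter fun T => T.card ≤ t).card := by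
  refine card_le_mul_card_image_of_maps_to (f := fun w => K.filter fun v => Gᶜ.Adj v w) ?_ _ ?_
  · intro w hw
    exact mem_filter.2 ⟨mem_powerset.2 (filter_subset _ _), (mem_filter.1 hw).2⟩
  · intro T hT
    obtain ⟨t1, t2⟩ := mem_filter.1 hT
    have t1' := mem_powerset.1 t1
    refine (es_bound G _ t k _ rfl ?_ (h2.mono ?_)).le
    · intro Q hQ hc
      have hq : ∀ w ∈ Q, w ∈ S ∧ w ∉ K ∧ (K.filter fun v => Gᶜ.Adj v w) = T := fun w hw => by
        obtain ⟨a, b⟩ := mem_filter.1 (hQ hw)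
        obtain ⟨c, d⟩ := mem_sdiff.1 (mem_filter.1 a).1
        exact ⟨c, d, b⟩
      have adj : ∀ v ∈ K \ T, ∀ w ∈ Q, G.Adj v w := by
        intro v hv w hw
        obtain ⟨v1, v2⟩ := mem_sdiff.1 hv
        obtain ⟨_, w2, w3⟩ := hq w hw
        by_contra hn
        refine v2 (w3 ▸ mem_filter.2 ⟨v1, (SimpleGraph.compl_adj _ _ _).2 ⟨?_, hn⟩⟩)
        rintro rfl
        exact w2 v1
      have d : Disjoint (K \ T) Q := by
        rw [disjoint_left]
        intro v hv hw
        exact (hq v hw).2.1 (mem_sdiff.1 hv).1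
      have c := hmax ((K \ T) ∪ Q)
        (union_subset (sdiff_subset.trans hKS) fun w hw => (hq w hw).1) (by
          intro u hu v hv huv
          rcases mem_union.1 (mem_coe.1 hu) with a | a <;>
            rcases mem_union.1 (mem_coe.1 hv) with b | b
          · exact hK (mem_sdiff.1 a).1 (mem_sdiff.1 b).1 huv
          · exact adj u a v b
          · exact (adj v b u a).symm
          · exact hc a b huv)
      rw [card_union_of_disjoint d, card_sdiff_of_subset t1'] at c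
      have := card_le_card t1'
      omega
    · exact (filter_subset _ _).trans ((filter_subset _ _).trans sdiff_subset)

theorem lin_le_pow (k : ℕ) : 100 * (k + 11) ≤ 2 ^ (k + 11) := by
  induction k with
  | zero => norm_num
  | succ k ih => rw [show k + 1 + 11 = (k + 11) + 1 by ring, pow_succ]; omega

theorem numeric {n M ρ t x : ℕ} (hM : 1000 ≤ M) (hρ : 2 * ρ ≤ M) (ht : 23 * t ≤ M) (ht1 : 1 ≤ t)
    (hn : 2 ^ ((M - 1) / 2) ≤ n) (hx : n ≤ 63 * M * (x + ρ))
    (hb : x * (10 ^ ρ * 23 ^ (M - 1)) ≤ 10 ^ t * 11 ^ ρ * 24 ^ (t + (M - 1))) : False := by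
  set P : ℝ := (11 / 10) ^ ρ * 240 ^ t * (24 / 23) ^ (M - 1) with hP
  have p1 : (x : ℝ) ≤ P := by
    have : (x : ℝ) * (10 ^ ρ * 23 ^ (M - 1)) ≤ 10 ^ t * 11 ^ ρ * 24 ^ (t + (M - 1)) := by
      exact_mod_cast hb
    rw [← le_div_iff₀ (by positivity)] at this
    refine this.trans (le_of_eq ?_)
    rw [hP, div_pow, div_pow, pow_add, show (240 : ℝ) = 10 * 24 by norm_num, mul_pow]
    field_simp
  have p2 : (ρ : ℝ) ≤ P := by
    have a1 := one_add_mul_le_pow (show (-2 : ℝ) ≤ 1 / 10 by norm_num) ρ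
    have a2 : (240 : ℝ) ^ 1 ≤ 240 ^ t := pow_le_pow_right₀ (by norm_num) ht1
    have a3 : (1 : ℝ) ≤ (24 / 23) ^ (M - 1) := one_le_pow₀ (by norm_num)
    have a4 : (0 : ℝ) ≤ (11 / 10) ^ ρ := by positivity
    rw [show (1 + 1 / 10 : ℝ) = 11 / 10 by norm_num] at a1
    calc (ρ : ℝ) ≤ (11 / 10) ^ ρ * 240 ^ 1 * 1 := by nlinarith
      _ ≤ P := by rw [hP]; gcongr
  have p3 : (n : ℝ) ≤ 2 ^ (M / 100 + 8) * P := by
    have a1 : (n : ℝ) ≤ 63 * M * (x + ρ) := by exact_mod_cast hx
    have a2 : M ≤ 2 ^ (M / 100 + 1) := by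
      have := lin_le_pow (M / 100 - 10)
      rw [show M / 100 - 10 + 11 = M / 100 + 1 by omega] at this
      omega
    have a3 : (M : ℝ) ≤ 2 ^ (M / 100 + 1) := by exact_mod_cast a2
    have p0 : 0 ≤ P := by positivity
    calc (n : ℝ) ≤ 63 * M * (x + ρ) := a1
      _ ≤ 64 * 2 ^ (M / 100 + 1) * (P + P) := by gcongr; norm_num
      _ = _ := by ring
  have p4 : P ^ 46 ≤ 2 ^ (22 * M) := by
    have a1 : (((11 : ℝ) / 10) ^ ρ) ^ 46 ≤ ((11 / 10) ^ 23) ^ M := by
      rw [← pow_mul, ← pow_mul]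
      exact pow_le_pow_right₀ (by norm_num) (by omega)
    have a2 : ((240 : ℝ) ^ t) ^ 46 ≤ (240 ^ 2) ^ M := by
      rw [← pow_mul, ← pow_mul]
      exact pow_le_pow_right₀ (by norm_num) (by omega)
    have a3 : (((24 : ℝ) / 23) ^ (M - 1)) ^ 46 ≤ ((24 / 23) ^ 46) ^ M := by
      rw [← pow_mul, ← pow_mul]
      exact pow_le_pow_right₀ (by norm_num) (by omega)
    calc P ^ 46 = (((11 : ℝ) / 10) ^ ρ) ^ 46 * ((240 : ℝ) ^ t) ^ 46 *
          (((24 : ℝ) / 23) ^ (M - 1)) ^ 46 := by rw [hP, mul_pow, mul_pow]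
      _ ≤ ((11 / 10) ^ 23) ^ M * (240 ^ 2) ^ M * ((24 / 23) ^ 46) ^ M := by gcongr
      _ = ((11 / 10) ^ 23 * 240 ^ 2 * (24 / 23) ^ 46) ^ M := by rw [mul_pow, mul_pow]
      _ ≤ (2 ^ 22) ^ M := by
        refine pow_le_pow_left₀ (by positivity) ?_ _
        norm_num
      _ = 2 ^ (22 * M) := by rw [pow_mul]
  have p5 : ((2 : ℝ) ^ ((M - 1) / 2)) ^ 46 ≤ 2 ^ ((M / 100 + 8) * 46 + 22 * M) := by
    have : (2 : ℝ) ^ ((M - 1) / 2) ≤ n := by exact_mod_cast hn
    calc ((2 : ℝ) ^ ((M - 1) / 2)) ^ 46 ≤ (2 ^ (M / 100 + 8) * P) ^ 46 := by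
          exact pow_le_pow_left₀ (by positivity) (this.trans p3) _
      _ = (2 ^ (M / 100 + 8)) ^ 46 * P ^ 46 := mul_pow _ _ _
      _ ≤ (2 ^ (M / 100 + 8)) ^ 46 * 2 ^ (22 * M) := by gcongr
      _ = _ := by rw [← pow_mul, ← pow_add]
  rw [← pow_mul, pow_le_pow_iff_right₀ (by norm_num)] at p5
  omega

theorem core {n m r k : ℕ} (hm : 998 ≤ m)
    (hext : ∀ H : SimpleGraph (Fin (n + 1)), ¬ (H.CliqueFree (m + 2) ∧ Hᶜ.CliqueFree (m + 2)))
    {V : Type} (G : SimpleGraph V) (S : Finset V) (h1 : Bd G S r) (hk : 2 ≤ k)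
    (hr : k * r ≤ m + 1) (h2 : Bd Gᶜ S (m + 1)) : 1000 * (k * S.card) < 959 * n := by
  classical
  by_contra hS
  push Not at hS
  have deg : ∀ v ∈ S, 1000 * (S.filter fun w => Gᶜ.Adj v w).card ≤ 41 * n := by
    intro v hv
    have := glue_bound hext G S (S.filter fun w => Gᶜ.Adj v w) (filter_subset _ _) h1 hk hr h2
      (h2.nbr hv fun w hw => mem_filter.1 hw)
    omega
  have hn := lower_bound (m := m + 1) (by omega) hext
  obtain ⟨K, hKS, hK, hmax⟩ := exists_max_clique G S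
  have hρ : k * K.card ≤ m + 1 := (Nat.mul_le_mul_left k (h1 K hKS hK)).trans hr
  have hρ2 : 2 * K.card ≤ m + 1 := (Nat.mul_le_mul_right _ hk).trans hρ
  have hk2 : k ≤ m + 1 := by
    rcases Nat.eq_zero_or_pos K.card with z | z
    · rw [z] at hmax
      have n0 : 0 < n := lt_of_lt_of_le (by positivity) hn
      rw [hmax.zero] at hS
      simp at hS
      omega
    · exact (Nat.le_mul_of_pos_right k z).trans hρ
  set t := (m + 2) / 23 with ht
  set d : V → ℕ := fun w => (K.filter fun v => Gᶜ.Adj v w).card with hd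
  have s1 : 1000 * ∑ w ∈ S, d w ≤ K.card * (41 * n) := by
    have : ∑ w ∈ S, d w = ∑ v ∈ K, (S.filter fun w => Gᶜ.Adj v w).card := by
      simp only [hd, card_filter]
      exact sum_comm
    rw [this, mul_sum]
    exact (sum_le_card_nsmul _ _ _ fun v hv => deg v (hKS hv)).trans_eq (smul_eq_mul _ _)
  have s2 : (S.filter fun w => ¬ d w ≤ t).card * (t + 1) ≤ ∑ w ∈ S, d w := by
    refine le_trans ?_ (sum_le_sum_of_subset (filter_subset (fun w => ¬ d w ≤ t) S))
    rw [← smul_eq_mul]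
    exact card_nsmul_le_sum _ _ _ fun w hw => by have := (mem_filter.1 hw).2; omega
  have s3 : 1000 * (k * (S.filter fun w => ¬ d w ≤ t).card) ≤ 943 * n := by
    have a : k * K.card ≤ 23 * (t + 1) := by omega
    refine Nat.le_of_mul_le_mul_right (c := t + 1) ?_ (by omega)
    calc 1000 * (k * (S.filter fun w => ¬ d w ≤ t).card) * (t + 1)
        = k * (1000 * ((S.filter fun w => ¬ d w ≤ t).card * (t + 1))) := by ring
      _ ≤ k * (K.card * (41 * n)) :=
        Nat.mul_le_mul_left _ ((Nat.mul_le_mul_left _ s2).trans s1)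
      _ = k * K.card * (41 * n) := by ring
      _ ≤ 23 * (t + 1) * (41 * n) := Nat.mul_le_mul_right _ a
      _ = _ := by ring
  have s4 : S.card ≤ ((S \ K).filter fun w => d w ≤ t).card + K.card +
      (S.filter fun w => ¬ d w ≤ t).card := by
    refine (card_le_card (t := ((S \ K).filter fun w => d w ≤ t) ∪ K ∪
      (S.filter fun w => ¬ d w ≤ t)) ?_).trans
      ((card_union_le _ _).trans (Nat.add_le_add_right (card_union_le _ _) _))
    intro w hw
    by_cases a : w ∈ K
    · simp [a]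
    · by_cases b : d w ≤ t
      · simp [a, b, hw]
      · exact mem_union_right _ (mem_filter.2 ⟨hw, b⟩)
  have s5 : n ≤ 63 * (m + 2) * (((S \ K).filter fun w => d w ≤ t).card + K.card) := by
    have a := Nat.mul_le_mul_left k s4
    rw [mul_add] at a
    have b := Nat.mul_le_mul_right (((S \ K).filter fun w => d w ≤ t).card + K.card)
      (show k ≤ m + 2 by omega)
    rw [mul_assoc]
    omega
  have g1 := good_bound G S K hKS hK hmax (m + 1) t h2
  have g2 := patterns_bound K t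
  have g3 := choose_bound t (m + 1)
  refine numeric (n := n) (M := m + 2) (ρ := K.card) (t := t)
    (x := ((S \ K).filter fun w => d w ≤ t).card) (by omega) (by omega) (by omega) (by omega)
    hn s5 ?_
  rw [show m + 2 - 1 = m + 1 from rfl]
  calc _ ≤ ((t + (m + 1)).choose t * (K.powerset.filter fun T => T.card ≤ t).card) *
        (10 ^ K.card * 23 ^ (m + 1)) := Nat.mul_le_mul_right _ (by convert g1)
    _ = ((K.powerset.filter fun T => T.card ≤ t).card * 10 ^ K.card) *
        ((t + (m + 1)).choose t * 23 ^ (m + 1)) := by ring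
    _ ≤ _ := Nat.mul_le_mul (by convert g2) g3

end Pool.Agent.Lib.MP_80f35e_co
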