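import Pool.Agent.Lib.MP_80f35e_co.Core

/-! Almost equal parts of an extremal graph are far from being completely joined. -/

set_option autoImplicit false

namespace Pool.Agent.Lib.MP_80f35e_co

open Finset

open Classical in
theorem cut_bound {n m t : ℕ} (hm : 998 ≤ m) (ht : 2 ≤ t)
    (hext : ∀ H : SimpleGraph (Fin (n + 1)), ¬ (H.CliqueFree (m + 2) ∧ Hᶜ.CliqueFree (m + 2)))
    {V : Type} [Fintype V] (G : SimpleGraph V) (h1 : G.CliqueFree (m + 2))
    (h2 : Gᶜ.CliqueFree (m + 2)) (A : Fin t → Finset V) (hA : ∀ i, 24 * n ≤ 25 * t * (A i).card) :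
    n ^ 2 ≤ 4000000 * t ^ 2 * (m + 2) * (univ.filter fun p : V × V =>
      ∃ i j, i ≠ j ∧ p.1 ∈ A i ∧ p.2 ∈ A j ∧ ¬ G.Adj p.1 p.2).card := by
  by_contra hlt
  push Not at hlt
  set d : V → ℕ := fun u =>
    (univ.filter fun v => ∃ i j, i ≠ j ∧ u ∈ A i ∧ v ∈ A j ∧ ¬ G.Adj u v).card with hd
  have e1 : (univ.filter fun p : V × V =>
      ∃ i j, i ≠ j ∧ p.1 ∈ A i ∧ p.2 ∈ A j ∧ ¬ G.Adj p.1 p.2).card = ∑ u, d u := by
    simp only [hd, card_filter]
    exact Fintype.sum_prod_type _
  rw [e1] at hlt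
  set B := univ.filter fun u => ¬ 2000 * t * (m + 2) * d u ≤ n with hB
  have a1 : B.card * n ≤ 2000 * t * (m + 2) * ∑ u, d u := by
    rw [mul_sum]
    refine le_trans ?_ (sum_le_sum_of_subset (subset_univ B))
    rw [← smul_eq_mul]
    exact card_nsmul_le_sum _ _ _ fun w hw => by have := (mem_filter.1 hw).2; omega
  have a2 : 2000 * (t * B.card) ≤ n := by
    have n0 : 0 < n := by
      rcases Nat.eq_zero_or_pos n with h | h
      · simp [h] at hlt
      · exact h
    refine Nat.le_of_mul_le_mul_right (c := n) ?_ n0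
    calc 2000 * (t * B.card) * n = 2000 * t * (B.card * n) := by ring
      _ ≤ 2000 * t * (2000 * t * (m + 2) * ∑ u, d u) := Nat.mul_le_mul_left _ a1
      _ = 4000000 * t ^ 2 * (m + 2) * ∑ u, d u := by ring
      _ ≤ n ^ 2 := hlt.le
      _ = n * n := sq n
  set r := (m + 1) / t with hr
  have r1 : t * r ≤ m + 1 := Nat.mul_div_le _ _
  have r2 : m + 1 < t * (r + 1) := Nat.lt_mul_div_succ _ (by omega)
  have main : ∀ k, k ≤ t → ∃ Q : Finset V, G.IsClique (Q : Set V) ∧
      (∀ x ∈ Q, x ∉ B ∧ ∃ i : Fin t, i.1 < k ∧ x ∈ A i) ∧ k * (r + 1) ≤ Q.card := by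
    intro k
    induction k with
    | zero => exact fun _ => ⟨∅, by simp, by simp, by simp⟩
    | succ k ih =>
      intro hk
      obtain ⟨Q, hQ, hQm, hQc⟩ := ih (by omega)
      have q1 : Q.card ≤ m + 1 := bd_of_cliqueFree h1 Q Q subset_rfl hQ
      set j : Fin t := ⟨k, by omega⟩ with hj
      set S := (A j).filter fun w => w ∉ B ∧ ∀ x ∈ Q, G.Adj x w with hS
      have b1 : (A j).card ≤ S.card + B.card + ∑ x ∈ Q, d x := by
        have c : A j ⊆ S ∪ B ∪ Q.biUnion fun u =>
            univ.filter fun v => ∃ i j, i ≠ j ∧ u ∈ A i ∧ v ∈ A j ∧ ¬ G.Adj u v := by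
          intro w hw
          by_cases a : w ∈ B
          · exact mem_union_left _ (mem_union_right _ a)
          by_cases b : ∀ x ∈ Q, G.Adj x w
          · exact mem_union_left _ (mem_union_left _ (mem_filter.2 ⟨hw, a, b⟩))
          push Not at b
          obtain ⟨x, hx, hx'⟩ := b
          obtain ⟨i, hi, hxi⟩ := (hQm x hx).2
          refine mem_union_right _ (mem_biUnion.2 ⟨x, hx, mem_filter.2 ⟨mem_univ _, i, j, ?_,
            hxi, hw, hx'⟩⟩)
          intro e
          rw [e] at hi
          exact lt_irrefl _ hi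
        exact (card_le_card c).trans ((card_union_le _ _).trans
          (Nat.add_le_add (card_union_le _ _) card_biUnion_le))
      have b2 : 2000 * t * (m + 2) * ∑ x ∈ Q, d x ≤ Q.card * n := by
        rw [mul_sum]
        refine (sum_le_card_nsmul _ _ _ fun x hx => ?_).trans_eq (smul_eq_mul _ _)
        by_contra c
        exact (hQm x hx).1 (mem_filter.2 ⟨mem_univ _, c⟩)
      have b3 : 2000 * (t * ∑ x ∈ Q, d x) ≤ n := by
        refine Nat.le_of_mul_le_mul_right (c := m + 2) ?_ (by omega)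
        calc 2000 * (t * ∑ x ∈ Q, d x) * (m + 2) = 2000 * t * (m + 2) * ∑ x ∈ Q, d x := by ring
          _ ≤ Q.card * n := b2
          _ ≤ (m + 2) * n := Nat.mul_le_mul_right _ (by omega)
          _ = _ := mul_comm _ _
      have b4 : 959 * n ≤ 1000 * (t * S.card) := by
        have c1 := Nat.mul_le_mul_left t b1
        have c2 := hA j
        rw [mul_add, mul_add] at c1
        rw [mul_assoc] at c2
        omega
      obtain ⟨K, hKS, hK, hmax⟩ := exists_max_clique G S
      have b5 : r + 1 ≤ K.card := by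
        by_contra c
        have := core hm hext G S (hmax.of_le (show K.card ≤ r by omega)) ht r1
          (bd_of_cliqueFree h2 _)
        omega
      have dj : Disjoint Q K := by
        rw [disjoint_left]
        intro x hx hxT
        exact G.irrefl ((mem_filter.1 (hKS hxT)).2.2 x hx)
      refine ⟨Q ∪ K, ?_, ?_, ?_⟩
      · intro u hu v hv huv
        rcases mem_union.1 (mem_coe.1 hu) with a | a <;>
          rcases mem_union.1 (mem_coe.1 hv) with b | b
        · exact hQ a b huv
        · exact (mem_filter.1 (hKS b)).2.2 u a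
        · exact ((mem_filter.1 (hKS a)).2.2 v b).symm
        · exact hK a b huv
      · intro x hx
        rcases mem_union.1 hx with a | a
        · obtain ⟨c, i, hi, hxi⟩ := hQm x a
          exact ⟨c, i, by omega, hxi⟩
        · obtain ⟨c1, c2, _⟩ := mem_filter.1 (hKS a)
          exact ⟨c2, j, by simp [hj], c1⟩
      · rw [card_union_of_disjoint dj, add_mul, one_mul]
        omega
  obtain ⟨Q, hQ, _, hQc⟩ := main t le_rfl
  have := bd_of_cliqueFree h1 Q Q subset_rfl hQ
  omega

end Pool.Agent.Lib.MP_80f35e_co
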