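import Mathlib

/-! Cliques with a large common neighbourhood in a fixed set, by an energy argument. -/

set_option autoImplicit false

namespace Pool.Agent.Lib.MP_80f35e_co

open Finset
open scoped Classical

noncomputable section

variable {V : Type}

/-- The indicator of adjacency. -/
def ind (G : SimpleGraph V) (x a : V) : ℝ := if G.Adj x a then 1 else 0

/-- The density of `a` towards `Y`. -/
def av (G : SimpleGraph V) (Y : Finset V) (a : V) : ℝ := (∑ x ∈ Y, ind G x a) / Y.card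

theorem ind_mem (G : SimpleGraph V) (x a : V) : 0 ≤ ind G x a ∧ ind G x a ≤ 1 := by
  unfold ind
  split_ifs <;> simp

theorem av_mem (G : SimpleGraph V) (Y : Finset V) (a : V) : 0 ≤ av G Y a ∧ av G Y a ≤ 1 :=
  ⟨div_nonneg (sum_nonneg fun x _ => (ind_mem G x a).1) (Nat.cast_nonneg _),
    div_le_one_of_le₀ ((sum_le_card_nsmul _ _ 1 fun x _ => (ind_mem G x a).2).trans (by simp))
      (Nat.cast_nonneg _)⟩

/-- All but an `η` fraction of `Y` behave like the average against any test function. -/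
def Reg (G : SimpleGraph V) (A Y : Finset V) (γ η : ℝ) : Prop :=
  ∀ h : V → ℝ, (∀ a, 0 ≤ h a ∧ h a ≤ 1) →
    ((Y.filter fun x => ∑ a ∈ A, h a * ind G x a < ∑ a ∈ A, h a * av G Y a - γ * A.card).card : ℝ)
      ≤ η * Y.card

theorem reg_of_max (G : SimpleGraph V) {A Y : Finset V} (hA : A.Nonempty) (g : V → ℝ)
    {μ γ η : ℝ} (hμ : 0 < μ) (hγ : 0 < γ) (hη : 0 ≤ η)
    (hmax : ∀ S ⊆ Y, S.Nonempty →
      ∑ a ∈ A, (av G S a * g a + μ * av G S a ^ 2) + μ * γ ^ 2 * η * A.card * Real.log S.card ≤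
      ∑ a ∈ A, (av G Y a * g a + μ * av G Y a ^ 2) + μ * γ ^ 2 * η * A.card * Real.log Y.card) :
    Reg G A Y γ η := by
  intro h hh
  set B := Y.filter fun x => ∑ a ∈ A, h a * ind G x a < ∑ a ∈ A, h a * av G Y a - γ * A.card
  rcases B.eq_empty_or_nonempty with h0 | h0
  · rw [h0, card_empty, Nat.cast_zero]
    positivity
  have hBY : B ⊆ Y := filter_subset _ _
  have a0 : (0 : ℝ) < A.card := Nat.cast_pos.2 hA.card_pos
  have b0 : (0 : ℝ) < B.card := Nat.cast_pos.2 h0.card_pos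
  have h1 : ∑ a ∈ A, h a * av G B a < ∑ a ∈ A, h a * av G Y a - γ * A.card := by
    have := sum_lt_sum_of_nonempty h0 fun x hx => (mem_filter.1 hx).2
    rw [sum_comm, sum_const, nsmul_eq_mul] at this
    simp only [av, ← mul_div_assoc, ← sum_div, mul_sum] at this ⊢
    rw [div_lt_iff₀' b0]
    exact this
  have h2 : (Y \ B).Nonempty := sdiff_nonempty.2 fun e => by
    rw [Subset.antisymm hBY e] at h1
    nlinarith
  have c0 : (0 : ℝ) < (Y \ B).card := Nat.cast_pos.2 h2.card_pos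
  have y0 : (Y.card : ℝ) = B.card + (Y \ B).card := by
    rw [← card_sdiff_add_card_eq_card hBY, Nat.cast_add, add_comm]
  have y1 : (0 : ℝ) < Y.card := by linarith
  obtain ⟨t, ht⟩ : ∃ t : ℝ, t = B.card / Y.card := ⟨_, rfl⟩
  have t1 : 1 - t = (Y \ B).card / Y.card := by
    rw [ht, eq_div_iff y1.ne', sub_mul, div_mul_cancel₀ _ y1.ne']
    linarith
  have t0 : 0 < t := ht ▸ div_pos b0 y1
  have t2 : 0 < 1 - t := t1 ▸ div_pos c0 y1
  have e : ∀ a, av G Y a = t * av G B a + (1 - t) * av G (Y \ B) a := fun a => by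
    rw [t1, ht, av, av, av, ← sum_sdiff hBY]
    field_simp
    ring
  have l1 : t * (Real.log Y.card - Real.log B.card) ≤ 1 - t := by
    have := Real.log_le_sub_one_of_pos (inv_pos.2 t0)
    rw [← Real.log_div y1.ne' b0.ne', ← inv_div, ← ht]
    nlinarith [mul_inv_cancel₀ t0.ne']
  have l2 : (1 - t) * (Real.log Y.card - Real.log (Y \ B).card) ≤ t := by
    have := Real.log_le_sub_one_of_pos (inv_pos.2 t2)
    rw [← Real.log_div y1.ne' c0.ne', ← inv_div, ← t1]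
    nlinarith [mul_inv_cancel₀ t2.ne']
  have m1 := mul_le_mul_of_nonneg_left (hmax B hBY h0) t0.le
  have m2 := mul_le_mul_of_nonneg_left (hmax _ sdiff_subset h2) t2.le
  have q1 : t * ∑ a ∈ A, (av G B a * g a + μ * av G B a ^ 2) +
      (1 - t) * ∑ a ∈ A, (av G (Y \ B) a * g a + μ * av G (Y \ B) a ^ 2) =
      ∑ a ∈ A, (av G Y a * g a + μ * av G Y a ^ 2) +
        μ * (t * (1 - t) * ∑ a ∈ A, (av G (Y \ B) a - av G B a) ^ 2) := by
    simp only [mul_sum, ← sum_add_distrib]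
    exact sum_congr rfl fun a _ => by rw [e a]; ring
  have q2 : 2 * γ * (∑ a ∈ A, h a * av G Y a - ∑ a ∈ A, h a * av G B a) ≤
      γ ^ 2 * A.card + (1 - t) ^ 2 * ∑ a ∈ A, (av G (Y \ B) a - av G B a) ^ 2 := by
    rw [← sum_sub_distrib, mul_sum, mul_sum, mul_comm _ (A.card : ℝ), ← nsmul_eq_mul, ← sum_const,
      ← sum_add_distrib]
    refine sum_le_sum fun a _ => ?_
    rw [e a]
    nlinarith [sq_nonneg (γ * h a - (1 - t) * (av G (Y \ B) a - av G B a)),
      mul_le_mul_of_nonneg_left (pow_le_one₀ (n := 2) (hh a).1 (hh a).2) (sq_nonneg γ)]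
  generalize ∑ a ∈ A, (av G (Y \ B) a - av G B a) ^ 2 = D at q1 q2
  have q3 : γ ^ 2 * A.card ≤ (1 - t) ^ 2 * D := by nlinarith
  have d0 : 0 ≤ D := by
    by_contra hD
    nlinarith [mul_pos (pow_pos hγ 2) a0, mul_pos (pow_pos t2 2) (neg_pos.2 (not_le.1 hD))]
  have q4 : μ * (t * (1 - t) * D) ≤ μ * γ ^ 2 * η * A.card := by
    have := mul_le_mul_of_nonneg_left (add_le_add l1 l2)
      (mul_nonneg (mul_nonneg (mul_pos hμ (pow_pos hγ 2)).le hη) a0.le)
    nlinarith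
  have q5 : μ * γ ^ 2 * A.card * t ≤ μ * γ ^ 2 * A.card * η := by
    have r1 : (1 - t) ^ 2 * D ≤ (1 - t) * D := by nlinarith [mul_nonneg (mul_pos t0 t2).le d0]
    nlinarith [mul_le_mul_of_nonneg_left (q3.trans r1) (mul_pos hμ t0).le]
  rw [← div_le_iff₀ y1, ← ht]
  exact le_of_mul_le_mul_left q5 (mul_pos (mul_pos hμ (pow_pos hγ 2)) a0)

theorem clique_of_reg (G : SimpleGraph V) {A Y : Finset V} {γ c : ℝ} {j : ℕ} (hc : 0 < c)
    (hc1 : c ≤ 1) (hR : Reg G A Y γ ((c / 2) ^ j / 2))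
    (hd : ∀ S ⊆ Y, (c / 2) ^ j / 2 * Y.card ≤ S.card →
      ∃ x ∈ S, c * S.card ≤ (S.filter (G.Adj x)).card)
    {g : V → ℝ} (hg : ∀ a, 0 ≤ g a ∧ g a ≤ 1) :
    ∃ X ⊆ Y, X.card = j ∧ G.IsClique (X : Set V) ∧
      ∑ a ∈ A, g a * av G Y a ^ j - j * (γ * A.card) ≤ ∑ a ∈ A, g a * ∏ x ∈ X, ind G x a := by
  have key : ∀ i k, i + k = j → ∃ X ⊆ Y, X.card = i ∧ G.IsClique (X : Set V) ∧ ∃ S ⊆ Y,
      (c / 2) ^ i * Y.card ≤ S.card ∧ (∀ x ∈ X, ∀ s ∈ S, G.Adj x s) ∧
      ∑ a ∈ A, g a * av G Y a ^ j - i * (γ * A.card) ≤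
        ∑ a ∈ A, g a * (∏ x ∈ X, ind G x a) * av G Y a ^ k := by
    intro i
    induction i with
    | zero =>
      rintro k rfl
      exact ⟨∅, empty_subset _, rfl, by simp, Y, Subset.rfl, by simp, by simp, by simp⟩
    | succ i ih =>
      intro k hk
      obtain ⟨X, x1, x2, x3, S, s1, s2, s3, s4⟩ := ih (k + 1) (by omega)
      have p : ∀ a, 0 ≤ ∏ x ∈ X, ind G x a ∧ ∏ x ∈ X, ind G x a ≤ 1 := fun a =>
        ⟨prod_nonneg fun x _ => (ind_mem G x a).1,
          prod_le_one (fun x _ => (ind_mem G x a).1) fun x _ => (ind_mem G x a).2⟩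
      have hb := hR (fun a => g a * (∏ x ∈ X, ind G x a) * av G Y a ^ k) fun a =>
        ⟨mul_nonneg (mul_nonneg (hg a).1 (p a).1) (pow_nonneg (av_mem G Y a).1 _),
          mul_le_one₀ (mul_le_one₀ (hg a).2 (p a).1 (p a).2) (pow_nonneg (av_mem G Y a).1 _)
            (pow_le_one₀ (av_mem G Y a).1 (av_mem G Y a).2)⟩
      set B := Y.filter fun x => ∑ a ∈ A, g a * (∏ x ∈ X, ind G x a) * av G Y a ^ k * ind G x a <
        ∑ a ∈ A, g a * (∏ x ∈ X, ind G x a) * av G Y a ^ k * av G Y a - γ * A.card with hB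
      have h1 : (S.card : ℝ) ≤ (S \ B).card + B.card := by exact_mod_cast card_le_card_sdiff_add_card
      have h2 : (c / 2) ^ j * (Y.card : ℝ) ≤ (c / 2) ^ i * Y.card :=
        mul_le_mul_of_nonneg_right
          (pow_le_pow_of_le_one (by positivity) (by linarith) (by omega)) (Nat.cast_nonneg _)
      obtain ⟨x, hx, h3⟩ := hd (S \ B) (sdiff_subset.trans s1) (by linarith)
      obtain ⟨h4, h5⟩ := mem_sdiff.1 hx
      have h6 : x ∉ X := fun h => G.irrefl (s3 x h x h4)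
      refine ⟨insert x X, insert_subset (s1 h4) x1, by rw [card_insert_of_notMem h6, x2], ?_,
        (S \ B).filter (G.Adj x), (filter_subset _ _).trans (sdiff_subset.trans s1), ?_, ?_, ?_⟩
      · rw [coe_insert]
        exact x3.insert fun y hy _ => (s3 y hy x h4).symm
      · rw [pow_succ]
        nlinarith
      · intro y hy s hs
        rcases mem_insert.1 hy with rfl | hy
        · exact (mem_filter.1 hs).2
        · exact s3 y hy s (mem_sdiff.1 (mem_filter.1 hs).1).1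
      · have h7 := not_lt.1 fun h => h5 (mem_filter.2 ⟨s1 h4, h⟩)
        simp only [prod_insert h6, pow_succ, ← mul_assoc, Nat.cast_succ] at s4 ⊢
        rw [sum_congr rfl fun a _ => show g a * ind G x a * (∏ x ∈ X, ind G x a) * av G Y a ^ k =
          g a * (∏ x ∈ X, ind G x a) * av G Y a ^ k * ind G x a by ring]
        linarith
  obtain ⟨X, x1, x2, x3, -, -, -, -, h⟩ := key j 0 rfl
  exact ⟨X, x1, x2, x3, by simpa using h⟩

/-- If many triples `(a, b, c)` have `a b` an edge of `G` and `a c` an edge of `H`, there are cliques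
of `G` in `B` and of `H` in `C` with many common neighbours in `A`. -/
theorem exists_cliques {c κ τ : ℝ} (hc : 0 < c) (hc1 : c ≤ 1) (hκ : 0 ≤ κ) (hτ : 0 < τ) (j : ℕ) :
    ∃ δ : ℝ, 0 < δ ∧ ∀ (V : Type) (G H : SimpleGraph V) (A B C : Finset V),
      A.Nonempty → B.Nonempty → C.Nonempty →
      (∀ S ⊆ B, δ * B.card ≤ S.card → ∃ x ∈ S, c * S.card ≤ (S.filter (G.Adj x)).card) →
      (∀ S ⊆ C, δ * C.card ≤ S.card → ∃ x ∈ S, c * S.card ≤ (S.filter (H.Adj x)).card) →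
      (κ + τ) * (A.card * B.card * C.card) ≤
        ((A ×ˢ B ×ˢ C).filter fun p => G.Adj p.1 p.2.1 ∧ H.Adj p.1 p.2.2).card →
      ∃ X ⊆ B, ∃ Y ⊆ C, X.card = j ∧ Y.card = j ∧ G.IsClique (X : Set V) ∧
        H.IsClique (Y : Set V) ∧ κ ^ j * A.card ≤
          (A.filter fun a => (∀ x ∈ X, G.Adj x a) ∧ ∀ y ∈ Y, H.Adj y a).card := by
  rcases j with _ | j
  · exact ⟨1, one_pos, fun V G H A B C _ _ _ _ _ _ =>
      ⟨∅, empty_subset _, ∅, empty_subset _, rfl, rfl, by simp, by simp, by simp⟩⟩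
  obtain ⟨γ, hγ, g1⟩ : ∃ γ : ℝ, 0 < γ ∧
      κ ^ (j + 1) = (κ + τ / 2) ^ (j + 1) - 2 * ((j + 1 : ℕ) * γ) :=
    ⟨((κ + τ / 2) ^ (j + 1) - κ ^ (j + 1)) / (2 * (j + 1 : ℕ)), div_pos (sub_pos.2
      (pow_lt_pow_left₀ (by linarith) hκ j.succ_ne_zero)) (by positivity), by field_simp; ring⟩
  obtain ⟨η, hη⟩ : ∃ η : ℝ, η = (c / 2) ^ (j + 1) / 2 := ⟨_, rfl⟩
  have η0 : 0 < η := hη ▸ by positivity
  obtain ⟨θ, hθ⟩ : ∃ θ : ℝ, θ = τ / 4 * γ ^ 2 * η := ⟨_, rfl⟩
  have θ0 : 0 < θ := hθ ▸ by positivity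
  refine ⟨η * Real.exp (-((1 + τ) / θ)), by positivity, fun V G H A B C hA hB hC dB dC h => ?_⟩
  have a0 : (0 : ℝ) < A.card := Nat.cast_pos.2 hA.card_pos
  let Φ : Finset V → Finset V → ℝ := fun Y Z =>
    ∑ a ∈ A, (av G Y a * av H Z a + τ / 4 * av G Y a ^ 2 + τ / 4 * av H Z a ^ 2)
  obtain ⟨⟨Y, Z⟩, m1, m2⟩ := exists_max_image
    ((B.powerset.filter Finset.Nonempty) ×ˢ (C.powerset.filter Finset.Nonempty))
    (fun p => Φ p.1 p.2 + θ * A.card * (Real.log p.1.card + Real.log p.2.card))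
    ⟨(B, C), by simp [hB, hC]⟩
  simp only [mem_product, mem_filter, mem_powerset, Prod.forall] at m1 m2
  obtain ⟨⟨y1, y2⟩, z1, z2⟩ := m1
  have rY : Reg G A Y γ η := reg_of_max G hA (av H Z) (μ := τ / 4) (by positivity) hγ η0.le
    fun S s1 s2 => by
      have := m2 S Z ⟨⟨s1.trans y1, s2⟩, z1, z2⟩
      simp only [Φ, sum_add_distrib, ← hθ] at this ⊢
      linarith
  have rZ : Reg H A Z γ η := reg_of_max H hA (av G Y) (μ := τ / 4) (by positivity) hγ η0.le
    fun S s1 s2 => by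
      have := m2 Y S ⟨⟨y1, y2⟩, s1.trans z1, s2⟩
      simp only [Φ, sum_add_distrib, ← hθ, mul_comm (av G Y _)] at this ⊢
      linarith
  have lo : (κ + τ) * A.card ≤ Φ B C := by
    have b0 : (0 : ℝ) < B.card := Nat.cast_pos.2 hB.card_pos
    have c0 : (0 : ℝ) < C.card := Nat.cast_pos.2 hC.card_pos
    refine le_trans ?_ (sum_le_sum (f := fun a => av G B a * av H C a) fun a _ => by
      nlinarith [sq_nonneg (av G B a), sq_nonneg (av H C a)])
    simp only [av, div_mul_div_comm, ← sum_div, sum_mul_sum]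
    rw [le_div_iff₀ (mul_pos b0 c0), mul_assoc, ← mul_assoc (A.card : ℝ)]
    refine h.trans_eq ?_
    simp only [card_filter, sum_product, Nat.cast_sum, ind, G.adj_comm, H.adj_comm]
    refine sum_congr rfl fun a _ => sum_congr rfl fun x _ => sum_congr rfl fun y _ => ?_
    by_cases h1 : G.Adj a x <;> by_cases h2 : H.Adj a y <;> simp [h1, h2]
  have hi : Φ Y Z ≤ ∑ a ∈ A, av G Y a * av H Z a + τ / 2 * A.card := by
    rw [mul_comm, ← nsmul_eq_mul, ← sum_const, ← sum_add_distrib]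
    exact sum_le_sum fun a _ => by
      nlinarith [pow_le_one₀ (n := 2) (av_mem G Y a).1 (av_mem G Y a).2,
        pow_le_one₀ (n := 2) (av_mem H Z a).1 (av_mem H Z a).2]
  have h1 : ∑ a ∈ A, av G Y a * av H Z a ≤ A.card :=
    (sum_le_card_nsmul _ _ 1 fun a _ =>
      mul_le_one₀ (av_mem G Y a).2 (av_mem H Z a).1 (av_mem H Z a).2).trans (by simp)
  have m3 := m2 B C ⟨⟨Subset.rfl, hB⟩, Subset.rfl, hC⟩
  have lg : ∀ {S T : Finset V}, S ⊆ T → S.Nonempty → Real.log S.card ≤ Real.log T.card :=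
    fun s1 s2 => Real.log_le_log (Nat.cast_pos.2 s2.card_pos) (Nat.cast_le.2 (card_le_card s1))
  have l1 := mul_le_mul_of_nonneg_left (lg y1 y2) (mul_pos θ0 a0).le
  have l2 := mul_le_mul_of_nonneg_left (lg z1 z2) (mul_pos θ0 a0).le
  have big : ∀ {S T : Finset V}, S.Nonempty → T.Nonempty →
      θ * A.card * Real.log T.card ≤ θ * A.card * Real.log S.card + (1 + τ) * A.card →
      η * Real.exp (-((1 + τ) / θ)) * T.card ≤ η * S.card := fun {S T} s t e => by
    rw [mul_assoc, ← Real.exp_log (Nat.cast_pos.2 s.card_pos),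
      ← Real.exp_log (Nat.cast_pos.2 t.card_pos), ← Real.exp_add]
    refine mul_le_mul_of_nonneg_left (Real.exp_le_exp.2 ?_) η0.le
    rw [neg_add_le_iff_le_add, ← sub_le_iff_le_add, le_div_iff₀ θ0]
    refine le_of_mul_le_mul_right ?_ a0
    linarith
  have k0 := mul_nonneg hκ a0.le
  have k1 := mul_pos hτ a0
  obtain ⟨X, x1, x2, x3, x4⟩ := clique_of_reg G hc hc1 (hη ▸ rY) (fun S s1 s2 => dB S (s1.trans y1)
    ((big y2 hB (by linarith)).trans (hη ▸ s2))) (g := fun a => av H Z a ^ (j + 1)) fun a =>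
      ⟨pow_nonneg (av_mem H Z a).1 _, pow_le_one₀ (av_mem H Z a).1 (av_mem H Z a).2⟩
  obtain ⟨W, w1, w2, w3, w4⟩ := clique_of_reg H hc hc1 (hη ▸ rZ) (fun S s1 s2 => dC S (s1.trans z1)
    ((big z2 hC (by linarith)).trans (hη ▸ s2))) (g := fun a => ∏ x ∈ X, ind G x a) fun a =>
      ⟨prod_nonneg fun x _ => (ind_mem G x a).1,
        prod_le_one (fun x _ => (ind_mem G x a).1) fun x _ => (ind_mem G x a).2⟩
  refine ⟨X, x1.trans y1, W, w1.trans z1, x2, w2, x3, w3, ?_⟩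
  have j1 := pow_sum_div_card_le_sum_pow (s := A) (f := fun a => av G Y a * av H Z a)
    (fun a _ => mul_nonneg (av_mem G Y a).1 (av_mem H Z a).1) j
  have j2 : (κ + τ / 2) ^ (j + 1) * A.card ≤
      (∑ a ∈ A, av G Y a * av H Z a) ^ (j + 1) / A.card ^ j := by
    rw [le_div_iff₀ (pow_pos a0 j), mul_assoc, ← pow_succ', ← mul_pow]
    exact pow_le_pow_left₀ (by positivity) (by linarith) _
  have j3 : ∑ a ∈ A, (∏ x ∈ X, ind G x a) * ∏ y ∈ W, ind H y a =
      (A.filter fun a => (∀ x ∈ X, G.Adj x a) ∧ ∀ y ∈ W, H.Adj y a).card := by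
    simp only [card_filter, Nat.cast_sum, ind, prod_boole]
    exact sum_congr rfl fun a _ => by
      rw [Nat.cast_ite, Nat.cast_one, Nat.cast_zero]
      split_ifs <;> first | tauto | simp
  simp only [mul_pow, mul_comm (av G Y _ ^ _)] at j1
  simp only [mul_comm (av H Z _ ^ _) (∏ x ∈ X, _)] at x4
  rw [← j3, g1]
  linarith

end

end Pool.Agent.Lib.MP_80f35e_co
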