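import Pool.Agent.Lib.MP_80f35e_co.Basic

/-! Three-copy gluing: two completely joined copies of `S` and a third copy of `U ⊆ S`. -/

set_option autoImplicit false

namespace Pool.Agent.Lib.MP_80f35e_co

open Finset

/-- the glued graph on three layers -/
def glue {V : Type*} (G : SimpleGraph V) (U : Finset V) : SimpleGraph (V × Fin 3) where
  Adj p q := p ≠ q ∧ ((p.2.1 + q.2.1 = 1 ∧ (p.1 ≠ q.1 ∨ p.1 ∉ U)) ∨
    (p.2.1 + q.2.1 ≠ 1 ∧ (p.1 = q.1 ∨ G.Adj p.1 q.1)))
  symm := ⟨by
    rintro p q ⟨h, h' | h'⟩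
    · refine ⟨h.symm, Or.inl ⟨by omega, ?_⟩⟩
      by_cases e : p.1 = q.1
      · rcases h'.2 with h2 | h2
        · exact absurd e h2
        · exact Or.inr (e ▸ h2)
      · exact Or.inl (Ne.symm e)
    · exact ⟨h.symm, Or.inr ⟨by omega, h'.2.imp Eq.symm fun a => a.symm⟩⟩⟩
  loopless := ⟨fun _ h => h.1 rfl⟩

open Classical in
theorem card_layers {V : Type*} (T : Finset (V × Fin 3)) (S : Finset V)
    (hS : ∀ p ∈ T, p.1 ∈ S) :
    T.card = (S.filter fun u => (u, (0 : Fin 3)) ∈ T).card +
      (S.filter fun u => (u, (1 : Fin 3)) ∈ T).card +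
      (S.filter fun u => (u, (2 : Fin 3)) ∈ T).card := by
  rw [card_eq_sum_card_fiberwise (f := Prod.snd) (s := T) (t := univ) (fun _ _ => by simp),
    Fin.sum_univ_three]
  have : ∀ i : Fin 3, (T.filter fun p => p.2 = i).card =
      (S.filter fun u => (u, i) ∈ T).card := by
    intro i
    refine card_bij (fun p _ => p.1) ?_ ?_ ?_
    · rintro ⟨u, j⟩ hp
      obtain ⟨h1, h2⟩ := mem_filter.1 hp
      simp only at h2
      subst h2
      exact mem_filter.2 ⟨hS _ h1, h1⟩
    · rintro ⟨u, j⟩ hp ⟨v, k⟩ hq huv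
      have h2 := (mem_filter.1 hp).2
      have h3 := (mem_filter.1 hq).2
      simp only at h2 h3 huv
      rw [h2, h3, huv]
    · intro u hu
      exact ⟨(u, i), mem_filter.2 ⟨(mem_filter.1 hu).2, rfl⟩, rfl⟩
  rw [this, this, this]

/-- there is a graph on `N` vertices with cliques of size at most `r` and independent sets of
size at most `s` -/
def Ram (r s N : ℕ) : Prop :=
  ∃ (X : Type) (H : SimpleGraph X) (W : Finset X), W.card = N ∧ Bd H W r ∧ Bd Hᶜ W s

/-- complete join of two graphs -/
def join {X Y : Type} (G : SimpleGraph X) (H : SimpleGraph Y) : SimpleGraph (X ⊕ Y) where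
  Adj p q := match p, q with
    | .inl a, .inl b => G.Adj a b
    | .inr a, .inr b => H.Adj a b
    | _, _ => True
  symm := ⟨by rintro (a | a) (b | b) h <;> first | exact h.symm | trivial⟩
  loopless := ⟨by rintro (a | a) h <;> exact h.ne rfl⟩

theorem Ram.add {r r' s N N' : ℕ} (h : Ram r s N) (h' : Ram r' s N') :
    Ram (r + r') s (N + N') := by
  classical
  obtain ⟨X, G, W, c, g1, g2⟩ := h
  obtain ⟨Y, H, Z, c', h1, h2⟩ := h'
  refine ⟨X ⊕ Y, join G H, W.disjSum Z, by rw [card_disjSum, c, c'], ?_, ?_⟩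
  · intro T hT hc
    rw [← card_toLeft_add_card_toRight]
    refine Nat.add_le_add (g1 _ (fun x hx => ?_) ?_) (h1 _ (fun x hx => ?_) ?_)
    · simpa using hT (mem_toLeft.1 hx)
    · intro a ha b hb hab
      exact hc (mem_toLeft.1 ha) (mem_toLeft.1 hb) (by simpa using hab)
    · simpa using hT (mem_toRight.1 hx)
    · intro a ha b hb hab
      exact hc (mem_toRight.1 ha) (mem_toRight.1 hb) (by simpa using hab)
  · intro T hT hc
    rw [← card_toLeft_add_card_toRight]
    have l : T.toLeft.card ≤ s := by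
      refine g2 _ (fun x hx => by simpa using hT (mem_toLeft.1 hx)) ?_
      intro a ha b hb hab
      exact ⟨hab, (hc (mem_toLeft.1 ha) (mem_toLeft.1 hb) (by simpa using hab)).2⟩
    have r : T.toRight.card ≤ s := by
      refine h2 _ (fun x hx => by simpa using hT (mem_toRight.1 hx)) ?_
      intro a ha b hb hab
      exact ⟨hab, (hc (mem_toRight.1 ha) (mem_toRight.1 hb) (by simpa using hab)).2⟩
    rcases T.toLeft.eq_empty_or_nonempty with z | ⟨a, ha⟩
    · rw [z, card_empty]; omega
    rcases T.toRight.eq_empty_or_nonempty with z | ⟨b, hb⟩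
    · rw [z, card_empty]; omega
    exact absurd trivial (hc (mem_toLeft.1 ha) (mem_toRight.1 hb) (by simp)).2

theorem ram_glue {m r : ℕ} {V : Type} (G : SimpleGraph V) (S U : Finset V) (hU : U ⊆ S)
    (h1 : Bd G S r) (h2 : Bd Gᶜ S (m + 1)) (h3 : Bd Gᶜ U m) :
    Ram (2 * r) (m + 1) (2 * S.card + U.card) := by
  classical
  let X : Finset (V × Fin 3) := (S ×ˢ {0, 1}) ∪ (U ×ˢ {2})
  have hX : X.card = 2 * S.card + U.card := by
    rw [card_union_of_disjoint, card_product, card_product]
    · simp [mul_comm]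
    · rw [disjoint_left]
      rintro ⟨u, i⟩ a b
      have a2 := (mem_product.1 a).2
      have b2 := (mem_product.1 b).2
      simp only [mem_singleton] at b2
      rw [b2] at a2
      simp at a2
  have hXS : ∀ p ∈ X, p.1 ∈ S := by
    intro p hp
    rcases mem_union.1 hp with h | h
    · exact (mem_product.1 h).1
    · exact hU (mem_product.1 h).1
  have hX2 : ∀ u, (u, (2 : Fin 3)) ∈ X → u ∈ U := by
    intro u hp
    rcases mem_union.1 hp with h | h
    · have := (mem_product.1 h).2
      simp at this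
    · exact (mem_product.1 h).1
  refine ⟨_, glue G U, X, hX, ?_, ?_⟩
  · intro T hT hc
    rw [card_layers T S fun p hp => hXS p (hT hp)]
    set P0 := S.filter fun u => (u, (0 : Fin 3)) ∈ T with e0
    set P1 := S.filter fun u => (u, (1 : Fin 3)) ∈ T with e1
    set P2 := S.filter fun u => (u, (2 : Fin 3)) ∈ T with e2
    have adj : ∀ (u v : V) (i j : Fin 3), (u, i) ∈ T → (v, j) ∈ T → u ≠ v → i.1 + j.1 ≠ 1 →
        G.Adj u v := by
      intro u v i j hu hv huv hij
      rcases (hc hu hv fun h => huv (congrArg Prod.fst h)).2 with h | h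
      · exact absurd h.1 hij
      · exact h.2.resolve_left huv
    have c1 : (P0 ∪ P2).card ≤ r := by
      refine h1 _ (union_subset (filter_subset _ _) (filter_subset _ _)) ?_
      intro u hu v hv huv
      rcases mem_union.1 (mem_coe.1 hu) with a | a <;>
        rcases mem_union.1 (mem_coe.1 hv) with b | b <;>
        exact adj u v _ _ (mem_filter.1 a).2 (mem_filter.1 b).2 huv (by decide)
    have c3 : (P1 ∪ (P0 ∩ P2)).card ≤ r := by
      refine h1 _ (union_subset (filter_subset _ _)
        (inter_subset_left.trans (filter_subset _ _))) ?_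
      intro u hu v hv huv
      rcases mem_union.1 (mem_coe.1 hu) with a | a <;>
        rcases mem_union.1 (mem_coe.1 hv) with b | b
      · exact adj u v _ _ (mem_filter.1 a).2 (mem_filter.1 b).2 huv (by decide)
      · exact adj u v _ _ (mem_filter.1 a).2 (mem_filter.1 (mem_inter.1 b).2).2 huv (by decide)
      · exact adj u v _ _ (mem_filter.1 (mem_inter.1 a).2).2 (mem_filter.1 b).2 huv (by decide)
      · exact adj u v _ _ (mem_filter.1 (mem_inter.1 a).2).2
          (mem_filter.1 (mem_inter.1 b).2).2 huv (by decide)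
    have c4 : Disjoint P1 (P0 ∩ P2) := by
      rw [disjoint_left]
      intro u a b
      have b0 := (mem_filter.1 (mem_inter.1 b).1).2
      have b2 := hX2 u (hT (mem_filter.1 (mem_inter.1 b).2).2)
      rcases (hc b0 (mem_filter.1 a).2 (by simp)).2 with h | h
      · rcases h.2 with h' | h'
        · exact h' rfl
        · exact h' b2
      · exact h.1 (by simp)
    rw [card_union_of_disjoint c4] at c3
    have c5 := card_union_add_card_inter P0 P2
    omega
  · intro T hT hc
    rw [card_layers T S fun p hp => hXS p (hT hp)]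
    set P0 := S.filter fun u => (u, (0 : Fin 3)) ∈ T with e0
    set P1 := S.filter fun u => (u, (1 : Fin 3)) ∈ T with e1
    set P2 := S.filter fun u => (u, (2 : Fin 3)) ∈ T with e2
    have adj : ∀ (u v : V) (i j : Fin 3), (u, i) ∈ T → (v, j) ∈ T → (u, i) ≠ (v, j) →
        i.1 + j.1 ≠ 1 → Gᶜ.Adj u v := by
      intro u v i j hu hv huv hij
      have h := ((SimpleGraph.compl_adj _ _ _).1 (hc hu hv huv)).2
      refine (SimpleGraph.compl_adj _ _ _).2 ⟨fun e => h ⟨huv, Or.inr ⟨hij, Or.inl e⟩⟩,
        fun e => h ⟨huv, Or.inr ⟨hij, Or.inr e⟩⟩⟩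
    have adj' : ∀ (u v : V) (i j : Fin 3), (u, i) ∈ T → (v, j) ∈ T → u ≠ v →
        i.1 + j.1 ≠ 1 → Gᶜ.Adj u v := fun u v i j hu hv huv hij =>
      adj u v i j hu hv (fun h => huv (congrArg Prod.fst h)) hij
    have one : ∀ i : Fin 3, i.1 + i.1 ≠ 1 → i.1 + 2 ≠ 1 → i ≠ 2 →
        (S.filter fun u => (u, i) ∈ T).card + P2.card ≤ m + 1 := by
      intro i i1 i2 i3
      have d : Disjoint (S.filter fun u => (u, i) ∈ T) P2 := by
        rw [disjoint_left]
        intro u a b
        exact (adj u u i 2 (mem_filter.1 a).2 (mem_filter.1 b).2 (by simpa using i3) i2).ne rfl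
      rw [← card_union_of_disjoint d]
      refine h2 _ (union_subset (filter_subset _ _) (filter_subset _ _)) ?_
      intro u hu v hv huv
      rcases mem_union.1 (mem_coe.1 hu) with a | a <;>
        rcases mem_union.1 (mem_coe.1 hv) with b | b
      · exact adj' u v _ _ (mem_filter.1 a).2 (mem_filter.1 b).2 huv i1
      · exact adj' u v _ _ (mem_filter.1 a).2 (mem_filter.1 b).2 huv i2
      · exact (adj' v u _ _ (mem_filter.1 b).2 (mem_filter.1 a).2 (Ne.symm huv) i2).symm
      · exact adj' u v _ _ (mem_filter.1 a).2 (mem_filter.1 b).2 huv (by decide)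
    rcases P1.eq_empty_or_nonempty with z | ⟨v, hv⟩
    · have : P0.card + P2.card ≤ m + 1 := one 0 (by decide) (by decide) (by decide)
      rw [z, card_empty]; omega
    rcases P0.eq_empty_or_nonempty with z | ⟨u, hu⟩
    · have : P1.card + P2.card ≤ m + 1 := one 1 (by decide) (by decide) (by decide)
      rw [z, card_empty]; omega
    have eq : ∀ a ∈ P0, ∀ b ∈ P1, a = b ∧ a ∈ U := by
      intro a ha b hb
      have ne : (a, (0 : Fin 3)) ≠ (b, 1) := by simp
      have h := ((SimpleGraph.compl_adj _ _ _).1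
        (hc (mem_filter.1 ha).2 (mem_filter.1 hb).2 ne)).2
      by_contra hh
      refine h ⟨ne, Or.inl ⟨by simp, ?_⟩⟩
      by_cases e : a = b
      · exact Or.inr fun hm => hh ⟨e, hm⟩
      · exact Or.inl e
    have k0 : P0.card ≤ 1 := card_le_one.2 fun a ha b hb =>
      (eq a ha v hv).1.trans (eq b hb v hv).1.symm
    have k1 : P1.card ≤ 1 := card_le_one.2 fun a ha b hb =>
      (eq u hu a ha).1.symm.trans (eq u hu b hb).1
    have uU := (eq u hu v hv).2
    have k2 : P2.card + 1 ≤ m := by
      have nm : u ∉ P2 := fun b =>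
        (adj u u 0 2 (mem_filter.1 hu).2 (mem_filter.1 b).2 (by simp) (by decide)).ne rfl
      rw [← card_insert_of_notMem nm]
      refine h3 _ ?_ ?_
      · intro x hx
        rcases mem_insert.1 hx with rfl | hx
        · exact uU
        · exact hX2 x (hT (mem_filter.1 hx).2)
      · rw [coe_insert]
        refine SimpleGraph.IsClique.insert ?_ fun b hb hne =>
          adj' u b 0 2 (mem_filter.1 hu).2 (mem_filter.1 hb).2 hne (by decide)
        intro a ha b hb hab
        exact adj' a b 2 2 (mem_filter.1 ha).2 (mem_filter.1 hb).2 hab (by decide)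
    omega

theorem glue_bound {n m r t : ℕ}
    (hext : ∀ H : SimpleGraph (Fin (n + 1)), ¬ (H.CliqueFree (m + 2) ∧ Hᶜ.CliqueFree (m + 2)))
    {V : Type} (G : SimpleGraph V) (S U : Finset V) (hU : U ⊆ S) (h1 : Bd G S r) (ht : 2 ≤ t)
    (hr : t * r ≤ m + 1) (h2 : Bd Gᶜ S (m + 1)) (h3 : Bd Gᶜ U m) :
    t * S.card + U.card ≤ n := by
  have key : ∀ k, Ram ((k + 2) * r) (m + 1) ((k + 2) * S.card + U.card) := by
    intro k
    induction k with
    | zero => exact ram_glue G S U hU h1 h2 h3
    | succ k ih =>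
      have := ih.add (r' := r) (N' := S.card) ⟨V, G, S, rfl, h1, h2⟩
      convert this using 1 <;> ring
  obtain ⟨k, rfl⟩ : ∃ k, t = k + 2 := ⟨t - 2, by omega⟩
  obtain ⟨X, H, W, c, g1, g2⟩ := key k
  rw [← c]
  exact card_le_of_ext hext H W (g1.of_le hr) g2

end Pool.Agent.Lib.MP_80f35e_co
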