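import Pool.Agent.Lib.MP_80f35e_co.Core

/-! Degrees in large sets, and the values of `m` at which the Ramsey number has grown steadily. -/

set_option autoImplicit false

namespace Pool.Agent.Lib.MP_80f35e_co

open Finset Filter
open scoped Classical

theorem two_half (m : ℕ) {a : ℝ} (h1 : 1 ≤ a) (h2 : a ^ 2 ≤ 2) : a ^ m ≤ 2 * 2 ^ (m / 2) :=
  calc a ^ m ≤ a ^ (2 * (m / 2 + 1)) := pow_le_pow_right₀ h1 (by omega)
    _ ≤ 2 ^ (m / 2 + 1) := by rw [pow_mul]; exact pow_le_pow_left₀ (by positivity) h2 _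
    _ = _ := pow_succ' _ _

theorem es_deg (d : ℝ) (hd : 0 < d) : ∃ m0 : ℕ, ∀ m ≥ m0, ∀ {V : Type} (G : SimpleGraph V)
    (T : Finset V), Bd G T m → Bd Gᶜ T m → d * 2 ^ (m / 2) ≤ T.card →
    ∃ x ∈ T, 1 / 1000 * (T.card : ℝ) ≤ (T.filter (G.Adj x)).card := by
  obtain ⟨m0, h0⟩ := eventually_atTop.1 ((tendsto_pow_atTop_atTop_of_one_lt
    (show (1 : ℝ) < 1.4 / 1.22 by norm_num)).eventually_gt_atTop (14 / d))
  refine ⟨m0, fun m hm V G T h1 h2 h3 => ?_⟩
  by_contra! hn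
  obtain ⟨K, k1, k2, k3⟩ := exists_max_clique Gᶜ T
  have k4 := h2 K k1 k2
  have g1 := good_bound Gᶜ T K k1 k2 k3 m (m / 100) (by rwa [compl_compl])
  simp only [compl_compl] at g1
  have g2 := patterns_bound K (m / 100)
  have g3 := choose_bound (m / 100) m
  set t := m / 100 with ht
  let e : V → ℕ := fun w => (K.filter fun v => G.Adj v w).card
  have s1 : 1000 * ∑ w ∈ T, e w ≤ K.card * T.card := by
    have : ∑ w ∈ T, e w = ∑ v ∈ K, (T.filter (G.Adj v)).card := by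
      simp only [e, card_filter]
      exact sum_comm
    rw [this, mul_sum]
    refine (sum_le_card_nsmul _ _ _ fun v hv => ?_).trans_eq (smul_eq_mul _ _)
    have := hn v (k1 hv)
    exact_mod_cast (by linarith : (1000 * (T.filter (G.Adj v)).card : ℝ) ≤ T.card)
  have s2 : (T.filter fun w => ¬ e w ≤ t).card * (t + 1) ≤ ∑ w ∈ T, e w := by
    refine le_trans ?_ (sum_le_sum_of_subset (filter_subset (fun w => ¬ e w ≤ t) T))
    rw [← smul_eq_mul]
    exact card_nsmul_le_sum _ _ _ fun w hw => by have := (mem_filter.1 hw).2; omega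
  have s3 : 10 * (T.filter fun w => ¬ e w ≤ t).card ≤ T.card := by
    refine Nat.le_of_mul_le_mul_right (c := 100 * (t + 1)) ?_ (by omega)
    have := Nat.mul_le_mul_right T.card (show K.card ≤ 100 * (t + 1) by omega)
    nlinarith
  have s4 : T.card ≤ ((T \ K).filter fun w => e w ≤ t).card + K.card +
      (T.filter fun w => ¬ e w ≤ t).card := by
    refine (card_le_card (t := ((T \ K).filter fun w => e w ≤ t) ∪ K ∪
      (T.filter fun w => ¬ e w ≤ t)) fun w hw => ?_).trans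
      ((card_union_le _ _).trans (Nat.add_le_add_right (card_union_le _ _) _))
    simp only [mem_union, mem_filter, Finset.mem_sdiff]
    tauto
  generalize hx : ((T \ K).filter fun w => e w ≤ t).card = x at s4
  have g4 : x * (10 ^ K.card * 23 ^ m) ≤ 10 ^ t * 11 ^ K.card * 24 ^ (t + m) :=
    calc _ ≤ ((t + m).choose t * (K.powerset.filter fun T => T.card ≤ t).card) *
          (10 ^ K.card * 23 ^ m) := Nat.mul_le_mul_right _ (hx ▸ g1)
      _ = ((K.powerset.filter fun T => T.card ≤ t).card * 10 ^ K.card) *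
          ((t + m).choose t * 23 ^ m) := by ring
      _ ≤ _ := Nat.mul_le_mul g2 g3
  have g5 : (x : ℝ) ≤ 1.22 ^ m := by
    have a : (x : ℝ) ≤ 240 ^ t * 1.1 ^ K.card * (24 / 23) ^ m := by
      rw [show (1.1 : ℝ) = 11 / 10 by norm_num, show (240 : ℝ) = 10 * 24 by norm_num, div_pow,
        div_pow, mul_pow, ← mul_div_assoc _ (11 ^ K.card : ℝ), div_mul_div_comm, le_div_iff₀ (by positivity)]
      exact_mod_cast g4.trans_eq (by ring)
    have b : (240 : ℝ) ^ t ≤ 1.06 ^ m := calc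
      (240 : ℝ) ^ t ≤ (1.06 ^ 100) ^ t := pow_le_pow_left₀ (by norm_num) (by norm_num) _
      _ ≤ _ := by rw [← pow_mul]; exact pow_le_pow_right₀ (by norm_num) (by omega)
    have c : (1.1 : ℝ) ^ K.card ≤ 1.1 ^ m := pow_le_pow_right₀ (by norm_num) k4
    refine a.trans ((mul_le_mul_of_nonneg_right (mul_le_mul b c (by positivity) (by positivity))
      (by positivity)).trans ?_)
    rw [← mul_pow, ← mul_pow]
    exact pow_le_pow_left₀ (by positivity) (by norm_num) _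
  have g6 := one_add_mul_le_pow (show (-2 : ℝ) ≤ 0.22 by norm_num) m
  have g7 := two_half m (a := 1.4) (by norm_num) (by norm_num)
  have g8 := h0 m hm
  rw [div_pow, div_lt_div_iff₀ hd (by positivity)] at g8
  have r1 : (9 * T.card : ℝ) ≤ 10 * (x + m) := by exact_mod_cast (by omega)
  rw [show (1 : ℝ) + 0.22 = 1.22 by norm_num] at g6
  nlinarith [mul_le_mul_of_nonneg_left g7 hd.le]

theorem exists_ext (m : ℕ) :
    ∃ n, ∀ H : SimpleGraph (Fin (n + 1)), ¬ (H.CliqueFree m ∧ Hᶜ.CliqueFree m) := by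
  refine ⟨(m + m).choose m, fun H h => ?_⟩
  have := es_bound H _ m m univ rfl (bd_of_cliqueFree (h.1.mono m.le_succ) _)
    (bd_of_cliqueFree (h.2.mono m.le_succ) _)
  simp at this

/-- The number `R(m, m) - 1`. -/
noncomputable def rho (m : ℕ) : ℕ := Nat.find (exists_ext m)

theorem rho_ext (m : ℕ) :
    ∀ H : SimpleGraph (Fin (rho m + 1)), ¬ (H.CliqueFree m ∧ Hᶜ.CliqueFree m) :=
  Nat.find_spec (exists_ext m)

theorem rho_le {m n : ℕ}
    (h : ∀ H : SimpleGraph (Fin (n + 1)), ¬ (H.CliqueFree m ∧ Hᶜ.CliqueFree m)) : rho m ≤ n :=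
  Nat.find_min' _ h

theorem card_le_rho {m : ℕ} {V : Type} (G : SimpleGraph V) (W : Finset V) (h1 : Bd G W m)
    (h2 : Bd Gᶜ W m) : W.card ≤ rho (m + 1) := card_le_of_ext (rho_ext _) G W h1 h2

theorem le_rho {m : ℕ} (hm : 2 ≤ m) : 2 ^ (m / 2) ≤ rho (m + 1) := lower_bound hm (rho_ext _)

theorem rho_step : ∃ m0, ∀ m ≥ m0, rho (m + 1) ≤ 10 ^ 6 * rho m := by
  obtain ⟨m0, h0⟩ := es_deg (1 / 1000) (by norm_num)
  refine ⟨m0 + 2, fun m hm => ?_⟩
  obtain ⟨k, rfl⟩ : ∃ k, m = k + 1 := ⟨m - 1, by omega⟩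
  have h1 := le_rho (m := k + 1) (by omega)
  obtain ⟨n, hn⟩ : ∃ n, rho (k + 1 + 1) = n + 1 :=
    ⟨_, (Nat.sub_add_cancel ((Nat.one_le_two_pow).trans h1)).symm⟩
  have h2 := Nat.find_min (exists_ext (k + 1 + 1)) (m := n) (hn ▸ n.lt_succ_self :
    n < rho (k + 1 + 1))
  push Not at h2
  obtain ⟨G, g1, g2⟩ := h2
  have h3 : (2 : ℝ) ^ ((k + 1) / 2) ≤ (univ : Finset (Fin (n + 1))).card := by
    rw [card_univ, Fintype.card_fin, ← hn]
    exact_mod_cast h1
  obtain ⟨x, -, hx⟩ := h0 (k + 1) (by omega) G univ (bd_of_cliqueFree g1 _) (bd_of_cliqueFree g2 _)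
    (by linarith [pow_pos (two_pos (α := ℝ)) ((k + 1) / 2)])
  obtain ⟨y, y1, hy⟩ := h0 (k + 1) (by omega) Gᶜ _ (bd_of_cliqueFree g2 _)
    (by rw [compl_compl]; exact bd_of_cliqueFree g1 _) (le_trans (by linarith) hx)
  have h5 := hy.trans (Nat.cast_le.2 (card_le_rho G _
    ((bd_of_cliqueFree g1 univ).nbr (mem_univ x) fun w hw => by
      simp only [mem_filter] at hw
      exact hw.1)
    ((bd_of_cliqueFree g2 univ).nbr (mem_univ y) fun w hw => by
      simp only [mem_filter] at hw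
      exact ⟨mem_univ _, hw.2⟩)))
  rw [card_univ, Fintype.card_fin] at hx
  rw [hn]
  exact_mod_cast (by linarith : ((n + 1 : ℕ) : ℝ) ≤ 10 ^ 6 * rho (k + 1))

theorem records_rho {lam : ℝ} (h1 : 1 ≤ lam) (h2 : lam ^ 2 < 2) :
    ∃ θ : ℝ, 0 < θ ∧ ∀ᶠ M : ℕ in atTop, θ * M ≤
      ((range M).filter fun m => ∀ j ≤ m, lam ^ j * rho (m - j) ≤ rho m).card := by
  obtain ⟨m0, h0⟩ := rho_step
  have l0 : 0 < lam := by linarith
  let N : ℕ → ℕ := fun M =>
    ((range M).filter fun m => ∀ j ≤ m, lam ^ j * rho (m - j) ≤ rho m).card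
  obtain ⟨K, hK⟩ := ((Set.finite_Iic m0).image fun i => rho i / lam ^ i).bddAbove
  have k0 : 0 ≤ K := le_trans (by positivity) (hK ⟨0, Nat.zero_le _, rfl⟩)
  have key : ∀ M, ∀ i < M, rho i / lam ^ i ≤ K * (10 ^ 6) ^ N M := by
    intro M
    induction M with
    | zero => simp
    | succ M ih =>
      have e : N (M + 1) = N M + if ∀ j ≤ M, lam ^ j * rho (M - j) ≤ rho M then 1 else 0 := by
        simp only [N, card_filter, sum_range_succ]
      have mono : K * (10 ^ 6) ^ N M ≤ K * (10 ^ 6) ^ N (M + 1) :=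
        mul_le_mul_of_nonneg_left (pow_le_pow_right₀ (by norm_num) (by omega)) k0
      intro i hi
      rcases (Nat.lt_succ_iff.1 hi).lt_or_eq with h | rfl
      · exact (ih i h).trans mono
      by_cases hm : i ≤ m0
      · exact (hK ⟨i, hm, rfl⟩).trans (le_mul_of_one_le_right k0 (one_le_pow₀ (by norm_num)))
      obtain ⟨k, rfl⟩ : ∃ k, i = k + 1 := ⟨i - 1, by omega⟩
      split_ifs at e with hr
      · have a := (Nat.cast_le (α := ℝ)).2 (h0 k (by omega))
        have b := ih k k.lt_succ_self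
        rw [div_le_iff₀ (by positivity)] at b ⊢
        rw [e, pow_succ, pow_succ lam]
        push_cast at a
        nlinarith [mul_le_mul_of_nonneg_left h1
          (by positivity : 0 ≤ K * (10 ^ 6) ^ N (k + 1) * lam ^ k)]
      · push Not at hr
        obtain ⟨j, j1, j2⟩ := hr
        have j0 : j ≠ 0 := by rintro rfl; simp at j2
        refine le_trans ?_ ((ih (k + 1 - j) (by omega)).trans mono)
        rw [div_le_div_iff₀ (by positivity) (by positivity), ← pow_sub_mul_pow lam j1]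
        nlinarith [pow_pos l0 (k + 1 - j)]
  obtain ⟨a, a1, a2⟩ : ∃ a : ℝ, lam < a ∧ a ^ 2 ≤ 2 :=
    ⟨√2, Real.lt_sqrt_of_sq_lt h2, (Real.sq_sqrt two_pos.le).le⟩
  have r1 : 1 < a / lam := (one_lt_div l0).2 a1
  have r2 := Real.log_pos r1
  have r3 : 0 < Real.log (10 ^ 6) := Real.log_pos (by norm_num)
  refine ⟨Real.log (a / lam) / (2 * Real.log (10 ^ 6)), by positivity, ?_⟩
  filter_upwards [eventually_ge_atTop 4, (tendsto_natCast_atTop_atTop.atTop_mul_const
    r2).eventually_ge_atTop (2 * (Real.log (2 * lam * K) + 2 * Real.log (a / lam)))] with M m1 m2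
  obtain ⟨k, rfl⟩ : ∃ k, M = k + 2 := ⟨M - 2, by omega⟩
  have b1 := key (k + 2) (k + 1) (by omega)
  have b2 := (Nat.cast_le (α := ℝ)).2 (le_rho (m := k) (by omega))
  have b3 := two_half k (h1.trans a1.le) a2
  have b4 : (a / lam) ^ k ≤ 2 * lam * K * (10 ^ 6) ^ N (k + 2) := by
    rw [div_le_iff₀ (by positivity), pow_succ] at b1
    rw [div_pow, div_le_iff₀ (by positivity)]
    rw [Nat.cast_pow, Nat.cast_ofNat] at b2
    linear_combination b3 + 2 * b2 + 2 * b1
  have k1 : 2 * lam * K ≠ 0 := fun h => by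
    rw [h, zero_mul] at b4
    exact absurd b4 (not_le.2 (by positivity))
  have b5 := Real.log_le_log (by positivity) b4
  rw [Real.log_mul k1 (by positivity), Real.log_pow, Real.log_pow (10 ^ 6)] at b5
  rw [div_mul_eq_mul_div, div_le_iff₀ (by positivity)]
  push_cast at m2 ⊢
  linarith

theorem records (lam : ℝ) (h0 : 0 < lam) (h2 : lam ^ 2 < 2) : ∃ S : Set ℕ,
    (∃ c : ℝ, 0 < c ∧ ∃ M0 : ℕ, ∀ M ≥ M0, c * M ≤ ({m | m ∈ S ∧ m < M}.ncard : ℝ)) ∧
    ∀ m ∈ S, ∀ j k N : ℕ, k + j + 1 = m →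
      (∀ H : SimpleGraph (Fin (N + 1)), ¬ (H.CliqueFree m ∧ Hᶜ.CliqueFree m)) →
      ∀ {V : Type} (G : SimpleGraph V) (T : Finset V), Bd G T k → Bd Gᶜ T k →
        lam ^ j * T.card ≤ N := by
  obtain ⟨θ, t0, t1⟩ := records_rho (le_max_left 1 lam) (by
    rcases max_choice 1 lam with h | h <;> rw [h]
    · norm_num
    · exact h2)
  obtain ⟨M0, t2⟩ := eventually_atTop.1 t1
  refine ⟨{m | ∀ j ≤ m, max 1 lam ^ j * rho (m - j) ≤ rho m}, ⟨θ, t0, M0, fun M hM =>
    (t2 M hM).trans_eq ?_⟩, fun m hm j k N e hN V G T b1 b2 => ?_⟩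
  · rw [← Set.ncard_coe_finset]
    congr 2
    ext m
    simp [and_comm]
  · have h := hm j (by omega)
    rw [show m - j = k + 1 by omega] at h
    exact (mul_le_mul (pow_le_pow_left₀ h0.le (le_max_right _ _) j)
      (Nat.cast_le.2 (card_le_rho G T b1 b2)) (Nat.cast_nonneg _) (by positivity)).trans
      (h.trans (Nat.cast_le.2 (rho_le hN)))

end Pool.Agent.Lib.MP_80f35e_co
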