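import Pool.Agent.Lib.MP_80f35e_co.En
import Pool.Agent.Lib.MP_80f35e_co.Records

/-! Mixed cherries in near-extremal Ramsey graphs at the growth records of the Ramsey numbers. -/

set_option autoImplicit false

namespace Pool.Agent.Lib.MP_80f35e_co

open Finset
open scoped Classical

/-- the common neighbourhood of a clique has smaller cliques -/
theorem bd_common {V : Type} {G : SimpleGraph V} {k j : ℕ} (h : G.CliqueFree (k + j + 1))
    {X T : Finset V} (hX : G.IsClique (X : Set V)) (hc : X.card = j)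
    (hT : ∀ a ∈ T, ∀ x ∈ X, G.Adj x a) : Bd G T k := by
  intro Q hQ hq
  have d : Disjoint Q X := disjoint_left.2 fun a ha hx => G.irrefl (hT a (hQ ha) a hx)
  have c := bd_of_cliqueFree h (Q ∪ X) (Q ∪ X) Subset.rfl (by
    intro u hu v hv huv
    rcases mem_union.1 (mem_coe.1 hu) with a | a <;>
      rcases mem_union.1 (mem_coe.1 hv) with b | b
    · exact hq a b huv
    · exact (hT u (hQ a) v b).symm
    · exact hT v (hQ b) u a
    · exact hX a b huv)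
  rw [card_union_of_disjoint d, hc] at c
  omega

theorem Bd.of_eq {V : Type} {G F : SimpleGraph V} {T : Finset V} {k : ℕ} (h : Bd F T k)
    (e : G = F) : Bd G T k := e ▸ h

theorem mixed_bound (κ : ℝ) (hκ : 1 / √2 < κ) : ∃ S : Set ℕ,
    (∃ c : ℝ, 0 < c ∧ ∃ M0 : ℕ, ∀ M ≥ M0, c * M ≤ ({m | m ∈ S ∧ m < M}.ncard : ℝ)) ∧
    ∀ ε : ℝ, 0 < ε → ∃ m0 : ℕ, ∀ m ∈ S, m0 ≤ m → ∀ N : ℕ,
      (∀ H : SimpleGraph (Fin (N + 1)), ¬ (H.CliqueFree m ∧ Hᶜ.CliqueFree m)) →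
      ∀ {V : Type} (G F : SimpleGraph V), Gᶜ = F → G.CliqueFree m → F.CliqueFree m →
      ∀ A B C : Finset V, ε * N ≤ A.card → ε * N ≤ B.card → ε * N ≤ C.card →
        (((A ×ˢ B ×ˢ C).filter fun p => G.Adj p.1 p.2.1 ∧ F.Adj p.1 p.2.2).card : ℝ) ≤
          κ * (A.card * B.card * C.card) := by
  have s0 : (0 : ℝ) < √2 := by positivity
  have s2 : √2 ^ 2 = 2 := Real.sq_sqrt (by norm_num)
  obtain ⟨k1, a1, a2⟩ := exists_between hκ
  obtain ⟨k2, a3, a4⟩ := exists_between a1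
  have p2 : 0 < k2 := lt_trans (by positivity) a3
  have p1 : 0 < k1 := p2.trans a4
  have l2 : (1 / k2) ^ 2 < 2 := by
    rw [← s2]
    refine pow_lt_pow_left₀ ?_ (by positivity) (by norm_num)
    rw [div_lt_iff₀ s0] at a3
    rw [div_lt_iff₀ p2]
    linarith
  obtain ⟨S, hS, hrec⟩ := records (1 / k2) (by positivity) l2
  refine ⟨S, hS, fun ε hε => ?_⟩
  obtain ⟨j, hj⟩ := pow_unbounded_of_one_lt (1 / ε) (show 1 < k1 / k2 from (one_lt_div p2).2 a4)
  obtain ⟨δ, hδ, hcl⟩ := exists_cliques (c := 1 / 1000) (κ := k1) (τ := κ - k1) (by norm_num)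
    (by norm_num) p1.le (sub_pos.2 a2) j
  obtain ⟨m1, hm1⟩ := es_deg (δ * ε) (by positivity)
  refine ⟨m1 + j + 3, fun m hm hm0 N hN V G F hF g1 g2 A B C hA hB hC => ?_⟩
  obtain ⟨k, rfl⟩ : ∃ k, m = k + j + 1 := ⟨m - j - 1, by omega⟩
  have lb : (2 : ℝ) ^ ((k + j) / 2) ≤ N := by
    exact_mod_cast lower_bound (m := k + j) (by omega) hN
  have n0 : (0 : ℝ) < N := lt_of_lt_of_le (by positivity) lb
  have ne : ∀ {D : Finset V}, ε * N ≤ D.card → D.Nonempty := fun h =>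
    card_pos.1 (Nat.cast_pos.1 (lt_of_lt_of_le (mul_pos hε n0) h))
  have dg : ∀ (F : SimpleGraph V) (D : Finset V), F.CliqueFree (k + j + 1) →
      Fᶜ.CliqueFree (k + j + 1) → ε * N ≤ D.card → ∀ T ⊆ D, δ * D.card ≤ T.card →
      ∃ x ∈ T, (1 / 1000 : ℝ) * T.card ≤ (T.filter (F.Adj x)).card := by
    intro F D f1 f2 hD T _ hT
    refine hm1 (k + j) (by omega) F T (bd_of_cliqueFree f1 _) (bd_of_cliqueFree f2 _) ?_
    calc δ * ε * 2 ^ ((k + j) / 2) ≤ δ * ε * N := by gcongr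
      _ = δ * (ε * N) := mul_assoc _ _ _
      _ ≤ δ * D.card := by gcongr
      _ ≤ _ := hT
  by_contra hlt
  obtain ⟨X, -, Y, -, x1, y1, x2, y2, h⟩ := hcl V G F A B C (ne hA) (ne hB) (ne hC)
    (dg G B g1 (hF ▸ g2) hB) (dg F C g2 (by rwa [← hF, compl_compl]) hC)
    (by rw [add_sub_cancel]; exact (not_le.1 hlt).le)
  have r1 : (1 / k2) ^ j * (k1 ^ j * (ε * N)) ≤ N := by
    refine le_trans (mul_le_mul_of_nonneg_left
      ((mul_le_mul_of_nonneg_left hA (by positivity)).trans h) (by positivity)) ?_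
    exact hrec _ hm j k N rfl hN G _ (bd_common g1 x2 x1 fun a ha => (mem_filter.1 ha).2.1)
      ((bd_common g2 y2 y1 fun a ha => (mem_filter.1 ha).2.2).of_eq hF)
  have r2 : (1 / k2) ^ j * (k1 ^ j * (ε * N)) = (k1 / k2) ^ j * ε * N := by
    rw [div_pow, div_pow, one_pow]
    ring
  rw [div_lt_iff₀ hε] at hj
  rw [r2] at r1
  nlinarith

end Pool.Agent.Lib.MP_80f35e_co
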